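import Mathlib
import Pool.Agent.Lib.MP_e62723_gt.Defs
import Pool.Agent.Lib.MP_e62723_gt.Asy.Main

open MeasureTheory

namespace Pool.Agent.Results.MP_e62723_gt.AsymptoticLowerBound

open Pool.Agent.Lib.MP_e62723_gt

/-- **A lower bound for the volume of bodies of constant width in high dimension.**

First part: an explicit bound, with three parameters, in every dimension. Second part: if
`c² < ρ (4 - 2/(1-ρ²))` for some `ρ` in `(0,1)` then `m_W(n) ≥ cⁿ κ_n` for all large `n`. Third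
part: `m_W(n) ≥ 0.82ⁿ κ_n` for all large `n`. -/
theorem result :
    (∀ (n : ℕ) (K : Set (E n)) (ρ t ε : ℝ), 0 < n → IsConvexBody K → HasConstantWidth K 2 →
      0 < ρ → ρ < 1 → 0 < t → 0 < ε → ε < 1 →
      (1 - (2 / (1 - ρ ^ 2) + t ^ 2 / ρ) / 4 - Real.exp (-(ε ^ 2 / 4)) ^ n) *
        (t * Real.exp (-(ε / 2))) ^ n * kappa n ≤ (volume K).toReal) ∧
    (∀ ρ c : ℝ, 0 < ρ → ρ < 1 → 0 ≤ c → c ^ 2 < ρ * (4 - 2 / (1 - ρ ^ 2)) →
      ∃ N : ℕ, ∀ n ≥ N, c ^ n * kappa n ≤ mW n) ∧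
    (∃ N : ℕ, ∀ n ≥ N, (0.82 : ℝ) ^ n * kappa n ≤ mW n) :=
  ⟨fun _ _ _ _ _ hn hK hw h0 h1 ht he0 he1 => Asy.vol_ge hn hK hw h0 h1 ht he0 he1,
    fun _ _ h0 h1 hc0 hc => Asy.main_mW h0 h1 hc0 hc, Asy.main_082⟩

end Pool.Agent.Results.MP_e62723_gt.AsymptoticLowerBound
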