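import Mathlib
import Pool.Agent.Lib.MP_e62723_gt.Defs
import Pool.Agent.Lib.MP_e62723_gt.Main

open Filter Topology

namespace Pool.Agent.Results.MP_e62723_gt.ConstantBrightness

open Pool.Agent.Lib.MP_e62723_gt

/-- **Partial answer to Q2: the minimal volume of bodies of constant brightness.** For every `n ≥ 3`
the infimum `m_B(n)` of the volumes of the convex bodies of constant brightness `κ_{n-1}` satisfies
`2^{-1/(n-1)} κ_n ≤ m_B(n) ≤ κ_n`; in particular `m_B(n) / κ_n → 1` as `n → ∞`. -/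
theorem result :
    (∀ n : ℕ, 3 ≤ n →
      (2 : ℝ) ^ (-(1 / ((n : ℝ) - 1))) * kappa n ≤ mB n ∧ mB n ≤ kappa n) ∧
    Tendsto (fun n : ℕ => mB n / kappa n) atTop (𝓝 1) :=
  ⟨fun _ hn => ⟨le_mB (by omega), mB_le (by omega)⟩, tendsto_ratio⟩

end Pool.Agent.Results.MP_e62723_gt.ConstantBrightness
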