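import Mathlib
import Pool.Agent.Lib.MP_e62723_gt.RevDefs
import Pool.Agent.Lib.MP_e62723_gt.RevFinal

open MeasureTheory

namespace Pool.Agent.Results.MP_e62723_gt.Revolution

open Pool.Agent.Lib.MP_e62723_gt.Rev

/-- **Q1 for bodies of revolution, in every dimension.** Let `m ≥ 1`. The rotated Reuleaux triangle
`R` in `ℝ^(m+1)` is a body of revolution of constant width `2`; its chord parallel to the axis at
distance `t` from it has length `chordLen t = √(4 - t^2) - √3 + √(4 - (1 + t)^2)` if `t ≤ 1` and is
empty otherwise, and its volume is `m κ_m ∫_0^1 t^(m-1) chordLen t dt`. Let `K` be any convex body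
of revolution of constant width `2` in `ℝ^(m+1)`, with axis `p + ℝ v`. Then each chord of `K`
parallel to its axis, at distance `t ≤ 1` from it, has length at least `chordLen t`. Consequently
`vol R ≤ vol K`, with equality if and only if `K` is congruent to `R`. -/
theorem result (m : ℕ) (hm : 1 ≤ m) :
    -- the rotated Reuleaux triangle belongs to the class
    IsWidthTwoRev (rotReuleaux m) 0 (ezero m) ∧
    -- its chords parallel to the axis, and its volume
    (∀ w : E m, inner ℝ w (ezero m) = 0 →
      chord (rotReuleaux m) 0 (ezero m) w = if ‖w‖ ≤ 1 then chordLen ‖w‖ else 0) ∧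
    volume.real (rotReuleaux m) =
      m * ballVol m * ∫ t in (0 : ℝ)..1, t ^ (m - 1) * chordLen t ∧
    -- its chords are pointwise the shortest, and it is the unique minimiser of the volume
    (∀ (K : Set (E m)) (p v : E m), IsWidthTwoRev K p v →
      (∀ w : E m, inner ℝ w v = 0 → ‖w‖ ≤ 1 → chordLen ‖w‖ ≤ chord K p v w) ∧
      volume (rotReuleaux m) ≤ volume K ∧
      (volume K = volume (rotReuleaux m) ↔ Congruent K (rotReuleaux m))) := by
  refine ⟨⟨rot_convexBody hm, rot_width hm, rot_revolution⟩, fun w hw => ?_, rot_volume hm, ?_⟩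
  · unfold chord
    simp only [zero_add]
    exact rot_chord_len hw
  · rintro K p v ⟨hK, hw, hrev⟩
    exact ⟨fun w hwv hw1 => chord_main hm hK hw hrev hwv hw1, volume_mono hm hK hw hrev,
      volume_eq_iff hm hK hw hrev⟩

end Pool.Agent.Results.MP_e62723_gt.Revolution
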