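import Mathlib
import Pool.Agent.Lib.MP_e62723_gt.Defs
import Pool.Agent.Lib.MP_e62723_gt.TE.Main

open MeasureTheory

namespace Pool.Agent.Results.MP_e62723_gt.ThreeDimensions

open Pool.Agent.Lib.MP_e62723_gt

/-- **A lower bound for the volume of bodies of constant width in `ℝ³`.**

Every convex body of constant width `2` in `ℝ³` has volume at least `π`, that is `3/4` of
the volume of the ball of the same width; so `m_W(3) ≥ (3/4) κ_3`. -/
theorem result :
    (∀ K : Set (E 3), IsConvexBody K → HasConstantWidth K 2 → Real.pi ≤ (volume K).toReal) ∧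
    3 / 4 * kappa 3 ≤ mW 3 ∧ kappa 3 = 4 * Real.pi / 3 := by
  refine ⟨fun K hK hw => ?_, TE.mW_ge, TD.kappa_three⟩
  have h := TE.body_ge hK hw
  rw [TD.kappa_three] at h
  linarith

end Pool.Agent.Results.MP_e62723_gt.ThreeDimensions
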